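import Pool.Agent.R699.TwistSum2

/-!
# MP_725651_al: sums of twisted large subsets cover all matrices

For every `c > 0` there is `μ` (for instance `μ = max ⌈64/c⌉ (K^K)` with `K = ⌈7^(16/c)⌉`) such
that for every finite field `F` with `q` elements, every `n ≥ 1`, and all subsets
`X_1, …, X_μ` of `M_n(F)` of size at least `q^(c n^2)` there are invertible matrices
`a_i, b_i` with `a_1 X_1 b_1 + ⋯ + a_μ X_μ b_μ = M_n(F)`.
-/

namespace Pool.Agent.Results.MP_725651_al.TwistedCover

open Matrix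
open scoped Pointwise

/-- **Main theorem.** The answer to Q1 is positive. -/
theorem result.{u} (c : ℝ) (hc : 0 < c) :
    ∃ μ : ℕ, ∀ (F : Type u) [Field F] [Finite F] (n : ℕ), 1 ≤ n →
      ∀ X : Fin μ → Set (Matrix (Fin n) (Fin n) F),
        (∀ i, (Nat.card F : ℝ) ^ (c * (n : ℝ) ^ 2) ≤ (Nat.card (X i) : ℝ)) →
        ∃ a b : Fin μ → GL (Fin n) F,
          ∑ i, (fun x : Matrix (Fin n) (Fin n) F => (a i).val * x * (b i).val) '' (X i) =
            Set.univ := by
  classical
  obtain ⟨μ, h⟩ := Pool.Agent.R699.TwistSum.main.{u} c hc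
  refine ⟨μ, ?_⟩
  intro F _ _ n hn X hX
  have : Fintype F := Fintype.ofFinite F
  obtain ⟨a, b, hab⟩ := h F n hn (fun i => (Set.toFinite (X i)).toFinset) (by
    intro i
    have := hX i
    rw [Nat.card_eq_fintype_card] at this
    rwa [← Set.ncard_eq_toFinset_card (X i) (Set.toFinite (X i)), ← Nat.card_coe_set_eq])
  refine ⟨a, b, ?_⟩
  rw [Set.eq_univ_iff_forall]
  intro M
  obtain ⟨x, hx, hM⟩ := hab M
  rw [Set.mem_fintype_sum]
  exact ⟨fun i => (a i).val * x i * (b i).val,
    fun i => ⟨x i, (Set.Finite.mem_toFinset _).1 (hx i), rfl⟩, hM⟩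

end Pool.Agent.Results.MP_725651_al.TwistedCover
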